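import Pool.Agent.Lib.H76Z.Z0

/-!
# Z1: splittings
-/

set_option autoImplicit false
set_option linter.unusedSectionVars false
namespace Pool.Agent.H76Z
open Module Matrix Polynomial Pool.Agent.H53Toric
open Pool.Agent.H76P Pool.Agent.H76Q Pool.Agent.H76Y
open Pool.Agent.H76U (cmp preL Lb Split4 IsSplitting)
open Pool.Agent.H76RM (spanK similD)

variable {ι : Type*} [Fintype ι] [DecidableEq ι] {K : Type*} [Field K] [Algebra ℚ K]
  {D : Subalgebra ℚ (Matrix ι ι ℚ)} {ψ : Matrix ι ι ℚ} {m : ℕ} {cl : Fin m → Cl}
  {bar : Fin m → Fin m} {e : Fin m → Matrix ι ι K} {u : Matrix ι ι K}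

/-- The splitting without the condition on the adjoints. -/
theorem Splits.zero (h : Splits D ψ cl bar e u) : IsSplitting D (0 : Matrix ι ι ℚ) bar e where
  mem := h.mem
  idem := h.idem
  ne_zero := h.ne_zero
  barbar := h.barbar
  adj := fun b => by
    have h1 : (0 : Matrix ι ι ℚ).map (algebraMap ℚ K) = 0 := by
      ext i j
      simp
    rw [h1, Matrix.mul_zero, Matrix.zero_mul]
  corner := h.corner
  orth := h.orth
  full := h.full

theorem Splits.map {K K' : Type*} [Field K] [CharZero K] [Field K'] [CharZero K']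
    {e : Fin m → Matrix ι ι K} {u : Matrix ι ι K} (h : Splits D ψ cl bar e u)
    (i : K →+* K') : Splits D ψ cl bar (fun b => (e b).map i) (u.map i) := by
  have h0 := h.zero.map i
  have hψ : (ψ.map (algebraMap ℚ K)).map i = ψ.map (algebraMap ℚ K') := by
    ext a b
    simp
  have hm : (ψ.map (algebraMap ℚ K) * u).map i = ψ.map (algebraMap ℚ K') * u.map i := by
    rw [H76U.map_mul', hψ]
  refine ⟨h0.mem, h0.idem, h0.ne_zero, h0.barbar, h0.corner, h0.orth, h0.full,
    H76U.spanK_map i h.umem, ?_, ?_, h.self, ?_, ?_⟩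
  · have h1 : (u.map i).det = i u.det := (RingHom.map_det _ _).symm
    rw [h1]
    exact h.unit.map i
  · intro b
    have h1 := congrArg (fun z : Matrix ι ι K => z.map i) (h.adj b)
    simp only [H76U.map_mul', Matrix.transpose_map, hψ] at h1
    exact h1
  · intro b hb
    have h1 := congrArg (fun z : Matrix ι ι K => z.map i) (h.alt b hb)
    beta_reduce at h1
    have h2 : (-((e b)ᵀ * (ψ.map (algebraMap ℚ K) * u) * e b)).map i =
        -(((e b)ᵀ * (ψ.map (algebraMap ℚ K) * u) * e b).map i) := by
      ext a c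
      rw [Matrix.map_apply, Matrix.neg_apply, Matrix.neg_apply, map_neg, Matrix.map_apply]
    rw [h2, H76U.map_mul', H76U.map_mul', H76U.map_mul', H76U.map_mul', Matrix.transpose_map,
      Matrix.transpose_map, hm] at h1
    exact h1
  · intro b hb
    have h1 := congrArg (fun z : Matrix ι ι K => z.map i) (h.sym b hb)
    beta_reduce at h1
    rw [H76U.map_mul', H76U.map_mul', H76U.map_mul', H76U.map_mul', Matrix.transpose_map,
      Matrix.transpose_map, hm] at h1
    exact h1

theorem Splits.split4 (h : Splits D ψ cl bar e u) :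
    Split4 (ψ.map (algebraMap ℚ K) * u) (spanK K D) bar e := by
  have h0 := Pool.Agent.H76U.split4_of h.zero
  exact ⟨h0.one, h0.mem, h0.idem, h0.barbar, h.adj, h0.corner, h0.orth, h0.full⟩

/-- A splitting in the old sense is a splitting with `u = 1` and the classes `s` and `n`. -/
theorem splits_of (hψ : ψᵀ = -ψ) (h : IsSplitting D ψ bar e) :
    Splits D ψ (fun b => if bar b = b then Cl.s else Cl.n) bar e 1 where
  mem := h.mem
  idem := h.idem
  ne_zero := h.ne_zero
  barbar := h.barbar
  corner := h.corner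
  orth := h.orth
  full := h.full
  umem := by
    have h1 : (1 : Matrix ι ι K) = (1 : Matrix ι ι ℚ).map (algebraMap ℚ K) := by simp
    rw [h1]
    exact Submodule.subset_span ⟨1, D.one_mem, rfl⟩
  unit := by simp
  adj := fun b => by rw [Matrix.mul_one, h.adj]
  self := fun b => by
    by_cases hb : bar b = b
    · simp [hb]
    · simp [hb]
  alt := fun b _ => by
    have h1 : (ψ.map (algebraMap ℚ K))ᵀ = -ψ.map (algebraMap ℚ K) := by
      rw [← Matrix.transpose_map, hψ]
      ext a c
      simp
    rw [Matrix.mul_one, h1, Matrix.mul_neg, Matrix.neg_mul]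
  sym := fun b hb => by
    by_cases hb' : bar b = b
    · simp [hb'] at hb
    · simp [hb'] at hb

end Pool.Agent.H76Z
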