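import Pool.Agent.Lib.H76Q.A4
import Pool.Agent.Lib.H76Q.A6
import Pool.Agent.Lib.H76Q.A7
import Pool.Agent.Lib.H76Y.A5
import Pool.Agent.Lib.H76Y.NS
import Pool.Agent.Lib.H76Y.EN2
import Pool.Agent.Lib.H76Z.Z1

/-!
# existence of the local data
-/

set_option autoImplicit false
set_option linter.unusedSectionVars false
namespace Pool.Agent.H76Z
open Pool.Agent.H76Y
open Pool.Agent.H76P Pool.Agent.H76V Pool.Agent.H76Q
open Module Matrix Polynomial Pool.Agent.H53Toric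
open Pool.Agent.H76T (IsIdeal Fam Lc)
open Pool.Agent.H76U (cmp preL IsSplitting Lb)
open Pool.Agent.H76RM (spanK similD)

variable {ι : Type*} [Fintype ι] [DecidableEq ι] {K : Type*} [Field K] [CharZero K]
  [IsAlgClosed K]

section
variable {B : Type*} [Fintype B] [DecidableEq B]
  {J : Matrix ι ι K} {DD : Submodule K (Matrix ι ι K)}
  {bar : B → B} {e : B → Matrix ι ι K} (h : H76U.Split4 J DD bar e) {b : B}
  {n : ℕ} {S : Set (Matrix ι ι K)} {𝓗 : Set (Matrix ι ι K)} {φ φ' : Matrix ι ι K}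
  {P : Matrix ι (Fin n) K} {Q : Matrix (Fin n) ι K}
  (hPQ : e b = P * Q) (hQP : Q * P = 1)
  (g : PH S J DD 𝓗 φ φ')

include h hPQ hQP g in
/-- A component which is its own conjugate respects the form induced by `J`. -/
theorem form_inv (hb : bar b = b) (hdet : IsUnit J.det) (hn : 0 < n) :
    IsUnit (Pᵀ * J * P).det ∧ ∀ X ∈ LcN J S P Q, adjE (Pᵀ * J * P) X = -X := by
  have hpJ : (e b)ᵀ * J = J * e b := by
    have := h.adj b
    rwa [hb] at this
  have hdb : IsUnit (Pᵀ * J * P).det := Pool.Agent.H76U.det_cmp hPQ hQP hpJ hdet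
  refine ⟨hdb, ?_⟩
  rintro X ⟨hX, htr⟩
  obtain ⟨x, rfl⟩ := (phi (ι := Fin n) (K := K)).surjective X
  obtain ⟨A, hA, rfl⟩ := Pool.Agent.H76U.mem_Lb.1 hX
  have hAe := Pool.Agent.H76V.preL_ec (b := b) h g.sh hA
  obtain ⟨-, d, hd⟩ := hA
  have h1 := Pool.Agent.H76U.cmp_sim hPQ hQP hpJ hAe
  rw [hd, Matrix.mul_smul, Matrix.smul_mul] at h1
  rw [H76Y.g4_trace] at htr
  obtain ⟨A', hA'⟩ : ∃ A', A' = cmp P Q A := ⟨_, rfl⟩
  obtain ⟨J', hJ'⟩ : ∃ J', J' = Pᵀ * J * P := ⟨_, rfl⟩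
  rw [← hA'] at h1 htr ⊢
  rw [← hJ'] at h1 hdb ⊢
  have h2 : J'⁻¹ * A'ᵀ * J' + A' = d • 1 := by
    have h3 := congrArg (fun z => J'⁻¹ * z) h1
    simp only [Matrix.mul_add, Matrix.mul_smul, ← Matrix.mul_assoc,
      Matrix.nonsing_inv_mul _ hdb, Matrix.one_mul] at h3
    exact h3
  have h4 : d * (n : K) = 0 := by
    have h3 := congrArg Matrix.trace h2
    rw [Matrix.trace_add, Matrix.mul_assoc, Matrix.trace_mul_comm, Matrix.mul_assoc,
      Matrix.mul_nonsing_inv _ hdb, Matrix.mul_one, Matrix.trace_transpose, htr, add_zero,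
      Matrix.trace_smul, Matrix.trace_one, Fintype.card_fin, smul_eq_mul] at h3
    exact h3.symm
  have h5 : d = 0 := by
    rcases mul_eq_zero.1 h4 with h6 | h6
    · exact h6
    · exact absurd h6 (by exact_mod_cast hn.ne')
  rw [h5, zero_smul] at h2
  rw [adjE_phi, eq_neg_of_add_eq_zero_left h2, map_neg]

end

theorem preL_unit {J : Matrix ι ι K} {S : Set (Matrix ι ι K)} {u : Matrix ι ι K}
    (h1 : (1 : Matrix ι ι K) ∈ S) (hu : ∀ s ∈ S, s * u = u * s) (hd : IsUnit u.det) :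
    preL (J * u) S = preL J S := by
  have hz : ∀ A : Matrix ι ι K, (∃ c : K, ∃ C ∈ zlie S, A = C + c • 1) → A * u = u * A := by
    rintro A ⟨c, C, hC, rfl⟩
    have h2 := Pool.Agent.H76RM.zlie_commute h1 hu hC
    rw [Matrix.add_mul, Matrix.mul_add, h2, Matrix.smul_mul, Matrix.mul_smul, Matrix.one_mul,
      Matrix.mul_one]
  have key : ∀ A : Matrix ι ι K, A * u = u * A → ∀ c : K,
      (Aᵀ * (J * u) + J * u * A = c • (J * u) ↔ Aᵀ * J + J * A = c • J) := by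
    intro A hA c
    have h2 : Aᵀ * (J * u) + J * u * A = (Aᵀ * J + J * A) * u := by
      rw [Matrix.add_mul, Matrix.mul_assoc J u A, ← hA]
      simp only [Matrix.mul_assoc]
    rw [h2, ← Matrix.smul_mul]
    constructor
    · intro h3
      have h4 := congrArg (fun z => z * u⁻¹) h3
      simp only [Matrix.mul_assoc, Matrix.mul_nonsing_inv _ hd, Matrix.mul_one] at h4
      exact h4
    · intro h3
      rw [h3]
  ext A
  constructor
  · rintro ⟨h2, c, hc⟩
    exact ⟨h2, c, (key A (hz A h2) c).1 hc⟩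
  · rintro ⟨h2, c, hc⟩
    exact ⟨h2, c, (key A (hz A h2) c).2 hc⟩

theorem lcN_unit {J : Matrix ι ι K} {S : Set (Matrix ι ι K)} {u : Matrix ι ι K}
    (h1 : (1 : Matrix ι ι K) ∈ S) (hu : ∀ s ∈ S, s * u = u * s) (hd : IsUnit u.det)
    {n : ℕ} (P : Matrix ι (Fin n) K) (Q : Matrix (Fin n) ι K) :
    LcN (J * u) S P Q = LcN J S P Q := by
  have h2 : Lb (J * u) S P Q = Lb J S P Q := by
    unfold Lb
    rw [preL_unit h1 hu hd]
  ext X
  constructor
  · rintro ⟨h3, h4⟩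
    exact ⟨h2 ▸ h3, h4⟩
  · rintro ⟨h3, h4⟩
    exact ⟨h2.symm ▸ h3, h4⟩

/-- The hypotheses on `J` imply the same for `J u`. -/
theorem ph_unit {S : Set (Matrix ι ι K)} {J : Matrix ι ι K} {DD : Submodule K (Matrix ι ι K)}
    {𝓗 : Set (Matrix ι ι K)} {φ φ' : Matrix ι ι K} (g : PH S J DD 𝓗 φ φ') {u : Matrix ι ι K}
    (hu : u ∈ DD) : PH S (J * u) DD 𝓗 φ φ' := by
  have hus : ∀ s ∈ S, s * u = u * s := fun s hs => g.sh.SD s hs u hu
  refine ⟨⟨g.sh.one, g.sh.SD, g.sh.semis, g.sh.commt, g.sh.cnj, fun γ => ⟨1, one_ne_zero, by simp⟩,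
    g.sh.rD, g.sh.hz, g.sh.hi, fun x hx => ?_, g.sh.gen⟩, fun s hs => ?_, g.inv, g.φD, g.cnj, g.dgb,
    g.torus, g.torgen⟩
  · have h1 := Pool.Agent.H76RM.zlie_commute g.sh.one hus (g.sh.hz x hx)
    rw [Matrix.mul_assoc J u x, ← h1, ← Matrix.mul_assoc, ← Matrix.mul_assoc, ← Matrix.add_mul,
      g.sh.hs x hx]
  · obtain ⟨c, hc⟩ := g.Ssim s hs
    refine ⟨c, ?_⟩
    calc sᵀ * (J * u) * s = (sᵀ * J * s) * u := by
          rw [Matrix.mul_assoc _ _ s, Matrix.mul_assoc J u s, ← hus s hs]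
          simp only [Matrix.mul_assoc]
      _ = c • (J * u) := by rw [hc, Matrix.smul_mul]

variable {L : Type*} [Field L] [CharZero L] [Algebra L K] {G : Type*} [Group G]

/-- The hypotheses of this section are those of `H76Q.mk_loc`, with the condition `bal` of balance. -/
theorem mk_loc {ψ : Matrix ι ι ℚ}
    (hψ : ψᵀ = -ψ) (hψ0 : ψ.det ≠ 0) (D : Subalgebra ℚ (Matrix ι ι ℚ))
    (ρ : G →* Matrix.GeneralLinearGroup ι L)
    (lin : ∀ σ : G, ∀ d ∈ D, (ρ σ).1 * d.map (algebraMap ℚ L) =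
      d.map (algebraMap ℚ L) * (ρ σ).1)
    (sim : ∀ σ : G, ∃ c : L, (ρ σ).1ᵀ * ψ.map (algebraMap ℚ L) * (ρ σ).1 =
      c • ψ.map (algebraMap ℚ L))
    (semis : ∀ H : Subgroup G, H.FiniteIndex → ∀ W : Submodule K (ι → K),
      (∀ s ∈ img K ρ H, ∀ w ∈ W, s *ᵥ w ∈ W) →
      ∃ W' : Submodule K (ι → K), (∀ s ∈ img K ρ H, ∀ w ∈ W', s *ᵥ w ∈ W') ∧ IsCompl W W')
    (commt : ∀ H : Subgroup G, H.FiniteIndex → ∀ y : Matrix ι ι K,
      (∀ s ∈ img K ρ H, y * s = s * y) → y ∈ spanK K D)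
    (gen : ∀ g : G, (ρ g).1.map (algebraMap L K) ∈ tgen K ρ)
    {M : Type*} [Field M] [CharZero M] {m : ℕ} {cl : Fin m → Cl} {bar : Fin m → Fin m}
    {e : Fin m → Matrix ι ι M} {u₀ : Matrix ι ι M} {F : Fin m → M[X]}
    (hspl : Splits D ψ cl bar e u₀) {x : Matrix ι ι K} (hF : FrobT K ρ e F x)
    (hx : x ∈ tgen K ρ) {q : ℚ}
    (hmult : xᵀ * ψ.map (algebraMap ℚ K) * x = algebraMap ℚ K q • ψ.map (algebraMap ℚ K))
    {H₀ : Subgroup G} (hfin : H₀.FiniteIndex) (hprime : (H76RM.van (img K ρ H₀)).IsPrime)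
    {Ω : Type*} [Field Ω] [IsAlgClosed Ω] (j : M →+* Ω) (i : Ω →+* K) (b : Fin m)
    {n : ℕ} (bal : ∀ h ∈ properProj K ρ, 2 * (h * (e b).map (i.comp j)).rank = n)
    {a : Fin n → Ω} (ha : Function.Injective a)
    (hroot : ∀ y : Ω, (F b).eval₂ j y = 0 ↔ ∃ k, y = a k)
    (ht : ∀ k l : Fin n, ∀ N : ℕ, N ≠ 0 → a k ^ N = a l ^ N → k = l) :
    ∃ (U : Matrix ι (Fin n) K) (V : Matrix (Fin n) ι K),
      LocN (cl b) (ψ.map (algebraMap ℚ K)) (img K ρ H₀) (properProj K ρ) ((e b).map (i.comp j)) x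
        (algebraMap ℚ K q) U V (fun k => i (a k)) (YS a) := by
  classical
  obtain ⟨hJ, hdet0⟩ := gram_basic hψ hψ0 K
  have hsplK : Splits D ψ cl bar (fun c => (e c).map (i.comp j)) (u₀.map (i.comp j)) :=
    hspl.map (i.comp j)
  have hspl4 := hsplK.split4
  have hι : Nonempty ι := by
    by_contra hemp
    rw [not_nonempty_iff] at hemp
    apply hsplK.ne_zero b
    ext i'
    exact (hemp.false i').elim
  obtain ⟨φ', g₀⟩ := mk_phT (K := K) hψ hψ0 D ρ lin sim semis commt gen hF hfin hprime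
  have g := ph_unit g₀ hsplK.umem
  have hus : ∀ s ∈ img K ρ H₀, s * u₀.map (i.comp j) = u₀.map (i.comp j) * s := fun s hs =>
    g₀.sh.SD s hs _ hsplK.umem
  have hdet : IsUnit (ψ.map (algebraMap ℚ K) * u₀.map (i.comp j)).det := by
    rw [Matrix.det_mul]
    exact hdet0.mul hsplK.unit
  have hφe : x * (e b).map (i.comp j) = (e b).map (i.comp j) * x := g.φD _ (hspl4.mem b)
  obtain ⟨U, V, hUV, hVU, E⟩ := exists_ecT hF j i b (hspl.idem b) hφe.symm ha hroot
  have hn : 0 < n := by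
    rw [Nat.pos_iff_ne_zero]
    rintro rfl
    apply hsplK.ne_zero b
    rw [hUV]
    ext i' j'
    rw [Matrix.mul_apply, Finset.univ_eq_empty, Finset.sum_empty]
    rfl
  have hL : LcN (ψ.map (algebraMap ℚ K) * u₀.map (i.comp j)) (img K ρ H₀) U V =
      LcN (ψ.map (algebraMap ℚ K)) (img K ρ H₀) U V :=
    lcN_unit g₀.sh.one hus hsplK.unit U V
  have hts := H76Y.mk_tm (b := b) hspl4 bal hdet hUV hVU g E hn (by
    intro k l N hN hkl
    refine ht k l N hN (i.injective ?_)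
    rw [map_pow, map_pow]
    exact hkl)
  have heP : (e b).map (i.comp j) * U = U := by
    rw [hUV, Matrix.mul_assoc, hVU, Matrix.mul_one]
  -- the transposed form on the component
  have htr : ∀ A : Matrix ι ι K, Uᵀ * A * U =
      Uᵀ * (((e b).map (i.comp j))ᵀ * A * (e b).map (i.comp j)) * U := by
    intro A
    have h1 : Uᵀ * ((e b).map (i.comp j))ᵀ = Uᵀ := by rw [← Matrix.transpose_mul, heP]
    calc Uᵀ * A * U = (Uᵀ * ((e b).map (i.comp j))ᵀ) * A * ((e b).map (i.comp j) * U) := by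
          rw [h1, heP]
      _ = _ := by simp only [Matrix.mul_assoc]
  refine ⟨U, V, ?_⟩
  refine
    { pos := hn
      UV := hUV
      VU := hVU
      ec := E
      ex := hφe.symm
      ts := hL ▸ hts
      cls := ?_
      yo := ?_
      par := ?_
      lie := ?_
      prod := ?_ }
  · rw [← hL]
    refine ⟨fun hb => ?_, fun hb => ?_, fun hb => ?_⟩
    · have hbar : bar b = b := (hspl.self b).2 (by rw [hb]; decide)
      obtain ⟨h1, h2⟩ := form_inv (b := b) hspl4 hUV hVU g hbar hdet hn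
      refine ⟨_, ?_, h1, h2⟩
      rw [Matrix.transpose_mul, Matrix.transpose_mul, Matrix.transpose_transpose, ← Matrix.mul_assoc,
        htr, hsplK.alt b hb, Matrix.mul_neg, Matrix.neg_mul, ← htr]
    · have hbar : bar b = b := (hspl.self b).2 (by rw [hb]; decide)
      obtain ⟨h1, h2⟩ := form_inv (b := b) hspl4 hUV hVU g hbar hdet hn
      refine ⟨_, ?_, h1, h2⟩
      rw [Matrix.transpose_mul, Matrix.transpose_mul, Matrix.transpose_transpose, ← Matrix.mul_assoc,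
        htr, hsplK.sym b hb, ← htr]
    · have hbar : bar b ≠ b := fun h => (hspl.self b).1 h hb
      exact H76Y.nsl (b := b) hspl4 hUV hVU g.sh hbar hdet bal
  · rw [← hL, H76Y.Yo_eq_YS (b := b) hspl4 bal hdet hUV hVU g E hn]
    exact YS_map i a
  · intro h hh
    rw [← hL]
    exact ⟨g.sh.hi h hh, H76Y.g5_comm (b := b) hspl4 g hh, bal h hh,
      (H76Y.g5_inv (b := b) hspl4 bal hdet hUV hVU g hh).1⟩
  · intro C hC
    rw [← hL]
    refine ⟨?_, H76Y.lc_of_zlie (b := b) hspl4 hdet hUV hVU g hn hC⟩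
    exact Pool.Agent.H76RM.zlie_commute g.sh.one (fun s hs => g.sh.SD s hs _ (hspl4.mem b)) hC
  · obtain ⟨-, c, -, hc, hd⟩ := EN.tgen_det (n := n) (J := ψ.map (algebraMap ℚ K)) hUV hVU
      (𝓗 := properProj K ρ) (fun h hh => ⟨g.sh.hi h hh, H76Y.g5_comm (b := b) hspl4 g hh,
        g₀.sh.hs h hh, bal h hh⟩) hx
    have hJ0 : ψ.map (algebraMap ℚ K) ≠ 0 := by
      intro h0
      rw [h0] at hdet0
      rw [Matrix.det_zero] at hdet0
      exact not_isUnit_zero hdet0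
    have hcq : c = algebraMap ℚ K q := smul_left_injective K hJ0 (by
      show c • ψ.map (algebraMap ℚ K) = algebraMap ℚ K q • ψ.map (algebraMap ℚ K)
      rw [← hc, hmult])
    have hdg : cmp U V x = Matrix.diagonal (fun k => i (a k)) := cmp_phi hVU E
    rw [hdg, Matrix.det_diagonal, hcq] at hd
    exact hd

end Pool.Agent.H76Z
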