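import Pool.Agent.Lib.H76Q.A2
import Pool.Agent.Lib.H76Z.W2
import Pool.Agent.Lib.H76Z.Z1

/-!
# the configuration under an automorphism which inverts the eigenvalues
-/

set_option autoImplicit false
set_option linter.unusedSectionVars false
namespace Pool.Agent.H76Z
open Pool.Agent.H76Y
open Module Matrix Polynomial Pool.Agent.H53Toric
open Pool.Agent.H76P Pool.Agent.H76Q

theorem a2d_zpow {κ : Type*} {K : Type*} [Field K] {t : K} (ht : t ≠ 0)
    (s : Finset κ) (m : κ → ℤ) : ∏ k ∈ s, t ^ m k = t ^ ∑ k ∈ s, m k := by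
  classical
  induction s using Finset.induction_on with
  | empty => simp
  | insert a s ha ih => rw [Finset.prod_insert ha, Finset.sum_insert ha, zpow_add₀ ht, ih]

theorem YS_dual {κ : Type*} [Fintype κ] [DecidableEq κ] [Nonempty κ] {K : Type*} [Field K]
    {d : κ → K} (hd : ∀ k, d k ≠ 0)
    {s : K →+* K} {σ : Equiv.Perm κ} {q : K} (hq0 : q ≠ 0)
    (hσ : ∀ k, s (d k) * d (σ k) = q) (hprod : (∏ k, d k) ^ 2 = q ^ Fintype.card κ) {f : κ → ℚ}
    (hf : f ∈ YS d) : f ∘ σ ∈ YS d := by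
  obtain ⟨h1, c, h2⟩ := a2_mem.1 hf
  refine a2_mem.2 ⟨?_, -c, fun m hm => ?_⟩
  · rw [← h1]
    exact Equiv.sum_comp σ f
  · set N : ℕ := Fintype.card κ with hN
    have hN0 : (N : ℚ) ≠ 0 := by exact_mod_cast Fintype.card_ne_zero
    set S : ℤ := ∑ k, m k with hS
    -- the relation for the image
    have h3 : ∏ k, d (σ k) ^ m k = q ^ S := by
      have h4 : ∏ k, (s (d k)) ^ m k = 1 := by
        have h5 : ∏ k, (s (d k)) ^ m k = s (∏ k, d k ^ m k) := by
          rw [map_prod]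
          exact Finset.prod_congr rfl fun k _ => (map_zpow₀ s _ _).symm
        rw [h5, hm, map_one]
      have h5 : ∏ k, (s (d k) * d (σ k)) ^ m k = q ^ S := by
        rw [Finset.prod_congr rfl fun k _ => by rw [hσ k], hS]
        exact a2d_zpow hq0 _ m
      simp only [mul_zpow] at h5
      rw [Finset.prod_mul_distrib, h4, one_mul] at h5
      exact h5
    have h6 : ∏ k, d k ^ ((N : ℤ) * m (σ.symm k) - 2 * S) = 1 := by
      have h7 : ∏ k, d k ^ ((N : ℤ) * m (σ.symm k) - 2 * S) =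
          (∏ k, d k ^ m (σ.symm k)) ^ (N : ℤ) * ((∏ k, d k) ^ (2 * S))⁻¹ := by
        rw [← Finset.prod_zpow, ← Finset.prod_zpow, ← Finset.prod_inv_distrib, ← Finset.prod_mul_distrib]
        refine Finset.prod_congr rfl fun k _ => ?_
        rw [zpow_sub₀ (hd k), mul_comm (N : ℤ), _root_.zpow_mul, div_eq_mul_inv]
      have h8 : ∏ k, d k ^ m (σ.symm k) = q ^ S := by
        rw [← h3, ← Equiv.prod_comp σ fun k => d k ^ m (σ.symm k)]
        exact Finset.prod_congr rfl fun k _ => by rw [Equiv.symm_apply_apply]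
      have h9 : (∏ k, d k) ^ (2 * S) = q ^ ((N : ℤ) * S) := by
        rw [_root_.zpow_mul, _root_.zpow_mul, zpow_natCast q N, ← hprod]
        norm_cast
      rw [h7, h8, h9, ← _root_.zpow_mul, mul_comm S]
      exact mul_inv_cancel₀ (zpow_ne_zero _ hq0)
    have h7 := h2 _ h6
    have h8 : ∑ k, (((N : ℤ) * m (σ.symm k) - 2 * S : ℤ) : ℚ) * (f k - c) =
        (N : ℚ) * (∑ k, (m k : ℚ) * (f (σ k) - c) + 2 * (S : ℚ) * c) := by
      have h9 : ∑ k, (m k : ℚ) * (f (σ k) - c) = ∑ k, (m (σ.symm k) : ℚ) * (f k - c) := by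
        rw [← Equiv.sum_comp σ fun k => (m (σ.symm k) : ℚ) * (f k - c)]
        exact Finset.sum_congr rfl fun k _ => by rw [Equiv.symm_apply_apply]
      have h10 : ∑ k, (f k - c) = -((N : ℚ) * c) := by
        rw [Finset.sum_sub_distrib, h1, Finset.sum_const, Finset.card_univ, nsmul_eq_mul, zero_sub]
      rw [h9]
      have h11 : ∀ k, (((N : ℤ) * m (σ.symm k) - 2 * S : ℤ) : ℚ) * (f k - c) =
          (N : ℚ) * ((m (σ.symm k) : ℚ) * (f k - c)) - 2 * (S : ℚ) * (f k - c) := by
        intro k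
        push_cast
        ring
      rw [Finset.sum_congr rfl fun k _ => h11 k, Finset.sum_sub_distrib, ← Finset.mul_sum,
        ← Finset.mul_sum, h10]
      ring
    rw [h8] at h7
    have h9 := (mul_eq_zero.1 h7).resolve_left hN0
    have h10 : ∑ k, (m k : ℚ) * ((f ∘ σ) k - -c) = ∑ k, (m k : ℚ) * (f (σ k) - c) + 2 * (S : ℚ) * c := by
      have h11 : ∀ k, (m k : ℚ) * ((f ∘ σ) k - -c) = (m k : ℚ) * (f (σ k) - c) + (m k : ℚ) * (2 * c) := by
        intro k
        rw [Function.comp_apply]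
        ring
      rw [Finset.sum_congr rfl fun k _ => h11 k, Finset.sum_add_distrib, ← Finset.sum_mul, hS]
      push_cast
      ring
    rw [h10, h9]

end Pool.Agent.H76Z
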