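import Pool.Agent.Lib.H76Q.Q3
import Pool.Agent.Lib.H76Y.A1
import Pool.Agent.Lib.H76Y.C5
import Pool.Agent.Lib.H76Y.Y0
import Pool.Agent.Lib.H76Z.Z1

/-!
# elements of the group are pure tensors
-/

set_option autoImplicit false
set_option linter.unusedSectionVars false
namespace Pool.Agent.H76Z
open Pool.Agent.H76Y
open Pool.Agent.H76P Pool.Agent.H76V Pool.Agent.H76Q
open Module Matrix Polynomial Pool.Agent.H53Toric
open Pool.Agent.H76P
open Pool.Agent.H76T (IsIdeal Fam Lc)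
open Pool.Agent.H76U (cmp preL IsSplitting)
open Pool.Agent.H76RM (spanK similD)

variable {ι : Type*} [Fintype ι] [DecidableEq ι] {K : Type*} [Field K] [CharZero K]
  [IsAlgClosed K] {ct : Cl} {J : Matrix ι ι K} {S 𝓗 : Set (Matrix ι ι K)} {e x : Matrix ι ι K} {q : K} {n : ℕ}
  {U : Matrix ι (Fin n) K} {V : Matrix (Fin n) ι K} {d : Fin n → K}
  {Y : Submodule ℚ (Fin n → ℚ)}

/-- PROOF. `cmp` is multiplicative on elements which commute with `e` (`H76U.cmp_mul`). -/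
theorem cmp_comm (h : LocN ct J S 𝓗 e x q U V d Y) {g : Matrix ι ι K}
    (hg : g ∈ Submonoid.closure {y | ∃ k ∈ 𝓗, ∃ t : K, t ≠ 0 ∧ y = 1 + (t - 1) • k}) :
    g * e = e * g := by
  refine Submonoid.closure_induction (motive := fun m _ => m * e = e * m) ?_ ?_ ?_ hg
  · rintro _ ⟨k, hk, t, -, rfl⟩
    rw [add_mul, mul_add, one_mul, mul_one, smul_mul_assoc, mul_smul_comm, (h.par k hk).2.1]
  · rw [one_mul, mul_one]
  · intro a b _ _ ha hb
    rw [mul_assoc, hb, ← mul_assoc, ha, mul_assoc]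

/-- PROOF. `Submonoid.closure_induction`: `PT_one`, `PT_mul` (with `cmp_mul`), `PT_par` for `y = phi (cmp U V (2 k - 1))`, `y * y = 1`,
`cmp (1 + (t - 1) k) = ((1 + t) / 2) + ((t - 1) / 2) y` (`h.par`). -/
theorem gen_PT (h : LocN ct J S 𝓗 e x q U V d Y) {P : Module.End ℚ Y} (hP : Sp P)
    (hc : Comp (LcN J S U V) P) {g : Matrix ι ι K}
    (hg : g ∈ Submonoid.closure {y | ∃ k ∈ 𝓗, ∃ t : K, t ≠ 0 ∧ y = 1 + (t - 1) • k}) :
    ∃ u r t, PTN (LcN J S U V) P (phi (cmp U V g)) u r t := by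
  have hne : Nonempty (Fin n) := ⟨⟨0, h.pos⟩⟩
  refine Submonoid.closure_induction (motive := fun m _ => ∃ u r t,
    PTN (LcN J S U V) P (phi (cmp U V m)) u r t) ?_ ?_ ?_ hg
  · rintro _ ⟨k, hk, t, ht, rfl⟩
    obtain ⟨hkk, hke, -, hkL⟩ := h.par k hk
    have h2 : ((2 : K) • k - 1) * e = e * ((2 : K) • k - 1) := by
      rw [sub_mul, mul_sub, one_mul, mul_one, smul_mul_assoc, mul_smul_comm, hke]
    have h3 : ((2 : K) • k - 1) * ((2 : K) • k - 1) = 1 := by
      simp only [sub_mul, mul_sub, smul_mul_assoc, mul_smul_comm, hkk, mul_one, one_mul]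
      module
    have hyy : phi (cmp U V ((2 : K) • k - 1)) * phi (cmp U V ((2 : K) • k - 1)) = 1 := by
      rw [← map_mul, ← H76U.cmp_mul h.UV h.VU h2, h3, H76U.cmp_one h.UV h.VU, map_one]
    have h4 : phi (cmp U V (1 + (t - 1) • k)) =
        ((1 + t) / 2) • (1 : Module.End K (Fin n → K)) + ((t - 1) / 2) • phi (cmp U V ((2 : K) • k - 1)) := by
      have h5 : 1 + (t - 1) • k = ((1 + t) / 2) • (1 : Matrix ι ι K) + ((t - 1) / 2) • ((2 : K) • k - 1) := by
        rw [smul_sub, smul_smul]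
        module
      rw [h5, map_add, map_smul, map_smul, H76U.cmp_one h.UV h.VU, map_add, map_smul, map_smul, map_one]
    rw [h4]
    rcases PT_par h.ts hc hkL hyy ht with h6 | h6
    · exact ⟨_, _, _, h6⟩
    · exact ⟨_, _, _, h6⟩
  · rw [H76U.cmp_one h.UV h.VU, map_one]
    exact ⟨_, _, _, PT_one h.ts⟩
  · rintro a b ha hb ⟨u, r, t, h1⟩ ⟨u', r', t', h2⟩
    rw [H76U.cmp_mul h.UV h.VU (cmp_comm h hb), map_mul]
    exact ⟨_, _, _, PT_mul h.ts h.yo hP h1 h2⟩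

end Pool.Agent.H76Z
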