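import Pool.Agent.Lib.H76Z.W4
import Pool.Agent.Lib.H76Z.F7
import Pool.Agent.Lib.H76Z.F8
import Pool.Agent.Lib.H76Q.E5
import Pool.Agent.Lib.H76Q.W5
import Pool.Agent.Lib.H76Z.Z1

/-!
# W5: inertia
-/

set_option autoImplicit false
set_option linter.unusedSectionVars false
namespace Pool.Agent.H76Z
open Pool.Agent.H76Y
open Pool.Agent.H76P Pool.Agent.H76V Pool.Agent.H76Q
open Module Matrix Polynomial Pool.Agent.H53Toric
open Pool.Agent.H76P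
open Pool.Agent.H76T (IsIdeal Fam Lc)
open Pool.Agent.H76U (cmp preL IsSplitting)
open Pool.Agent.H76RM (spanK similD)

variable {ι : Type*} [Fintype ι] [DecidableEq ι] {ψ : Matrix ι ι ℚ}
    {D : Subalgebra ℚ (Matrix ι ι ℚ)} {M : Type*} [Field M] [NumberField M]
    {m : ℕ} {cl : Fin m → Cl} {bar : Fin m → Fin m} {e : Fin m → Matrix ι ι M} {u₀ : Matrix ι ι M} {G : Type*} [Group G]
    {ρ : ∀ (l : ℕ) [Fact l.Prime], G →* Matrix.GeneralLinearGroup ι ℚ_[l]}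
    {p : ℕ} [Fact p.Prime] {σ : G} {q : ℚ} {F : Fin m → M[X]}
    {φ μ ν : Matrix ι ι (AlgebraicClosure ℚ_[p])} {v : AlgebraicClosure ℚ_[p] → ℚ}
    {Δ : Set (AlgebraicClosure ℚ_[p] ≃+* AlgebraicClosure ℚ_[p])}
    {Ω : Type*} [Field Ω] [CharZero Ω] [IsAlgClosed Ω] [Algebra.IsAlgebraic ℚ Ω] {j : M →+* Ω}
    {R : Finset Ω} {N : Set ℕ} (C : Core3 ψ D cl bar e u₀ ρ p σ q F φ μ ν v Δ j R N)

include C

theorem Core3.inert (b : Fin m)
    {n : ℕ} {a : Fin n → Ω} (ha : Function.Injective a)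
    (hroot : ∀ y : Ω, (F b).eval₂ j y = 0 ↔ ∃ k, y = a k)
    {P : Module.End ℚ (YS a)} (hP : Sp P) (hg : GoodN (cl b) P) (i : Ω →+* AlgebraicClosure ℚ_[p])
    {δ : AlgebraicClosure ℚ_[p] ≃+* AlgebraicClosure ℚ_[p]} (hδ : δ ∈ Δ) :
    ∃ (s : Ω ≃+* Ω) (π : Equiv.Perm (Fin n)), (∀ y, δ (i y) = i (s y)) ∧
      (∀ k, s (a k) = a (π k)) ∧ StabP P π ∧ s ∈ GamP j R a P ∧ s ∈ fixMu n Ω := by
  obtain ⟨H₀, U, V, hH₀, h⟩ := C.locp b ha hroot i
  obtain ⟨s, hs⟩ := exists_res i δ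
  have hsj : ∀ c, s (j c) = j c := by
    intro c
    apply i.injective
    rw [← hs]
    exact C.crys.dM δ hδ (i.comp j) c
  have hsR : ∀ r ∈ R, s r = r := by
    intro r hr
    apply i.injective
    rw [← hs]
    exact C.Rfix i r hr δ hδ
  obtain ⟨π, hπ⟩ := exists_perm ha hroot hsj
  have he : ((e b).map (i.comp j)).map δ = (e b).map (i.comp j) := by
    ext k l
    simp only [Matrix.map_apply]
    exact C.crys.dM δ hδ (i.comp j) _
  have hS : ∀ s ∈ img (AlgebraicClosure ℚ_[p]) (ρ p) H₀, s.map δ = s := by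
    rintro _ ⟨g, -, rfl⟩
    ext k l
    simp only [Matrix.map_apply]
    exact C.crys.dfix δ hδ _
  obtain ⟨θ, hθ, hθU⟩ := exists_theta h (τ := δ) he (C.crys.dphi δ hδ) (w5_mapQ δ ψ) hS
    (σ := π) (fun k => by rw [hs, hπ])
  have hI := theta_ideal h he hθ hθU
    (fun I hI1 hI2 X hX Y hY => C.crys.dideal δ hδ H₀ hH₀ I hI1 hI2 X hX Y hY)
  have hcomp : Comp (LcN (ψ.map (algebraMap ℚ (AlgebraicClosure ℚ_[p])))
      (img (AlgebraicClosure ℚ_[p]) (ρ p) H₀) U V) P := hg _ _ h.ts h.cls h.yo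
  have hstab := stab_of_theta h hθ hP hcomp hI
  refine ⟨s, π, hs, hπ, hstab, ⟨hsj, hsR, π, hπ, hstab⟩, fun z hz => ?_⟩
  apply i.injective
  rw [← hs]
  refine C.munr b δ hδ (i z) ?_
  rw [← C.card b ha hroot, ← map_pow, hz, map_one]

theorem Core3.int_val (b : Fin m)
    {n : ℕ} {a : Fin n → Ω} (ha : Function.Injective a)
    (hroot : ∀ y : Ω, (F b).eval₂ j y = 0 ↔ ∃ k, y = a k)
    {P : Module.End ℚ (YS a)} (hP : Sp P) (hg : GoodN (cl b) P) (i : Ω →+* AlgebraicClosure ℚ_[p])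
    {c : Ω} (hc0 : c ≠ 0) (hc : ∀ s ∈ GamP j R a P, s ∈ fixMu n Ω → s c = c) : ∃ n : ℤ, v (i c) = n := by
  refine C.crys.dval (i c) ?_ (fun δ hδ => ?_)
  · rw [Ne, map_eq_zero]
    exact hc0
  · obtain ⟨s, π, hs, _, _, hsG, hsμ⟩ := C.inert b ha hroot hP hg i hδ
    rw [hs, hc s hsG hsμ]

theorem Core3.even (b : Fin m)
    {n : ℕ} {a : Fin n → Ω} (ha : Function.Injective a)
    (hroot : ∀ y : Ω, (F b).eval₂ j y = 0 ↔ ∃ k, y = a k)
    {P : Module.End ℚ (YS a)} (hP : Sp P) (hg : GoodN (cl b) P) {t : Fin n → Ω} (ht : Lift P a t)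
    (i : Ω →+* AlgebraicClosure ℚ_[p])
    {ε : Fin n → ℚ} (hε : IsHT μ φ ((e b).map (i.comp j)) (fun k => i (a k)) ε)
    (hεP : FunP (1 - P) ε) : ∃ N : ℤ, v (i (∏ k, t k)) = n * N := by
  obtain ⟨H₀, U, V, hH₀, h⟩ := C.locp b ha hroot i
  have hcomp : Comp (LcN (ψ.map (algebraMap ℚ (AlgebraicClosure ℚ_[p])))
      (img (AlgebraicClosure ℚ_[p]) (ρ p) H₀) U V) P := hg _ _ h.ts h.cls h.yo
  obtain ⟨ξ, ξ', hξ, hξξ, hunr⟩ := C.crys.unr
  have heK : (e b).map (i.comp j) ∈ spanK (AlgebraicClosure ℚ_[p]) D :=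
    H76U.spanK_map (i.comp j) (C.hspl.mem b)
  have hρe : ∀ g : G, (ρ p g).1.map (algebraMap ℚ_[p] (AlgebraicClosure ℚ_[p])) *
      (e b).map (i.comp j) = (e b).map (i.comp j) *
        (ρ p g).1.map (algebraMap ℚ_[p] (AlgebraicClosure ℚ_[p])) :=
    fun g => H76RM.comm_span (w1_lin C g) _ heK
  have hed : ∀ δ ∈ Δ, ((e b).map (i.comp j)).map δ = (e b).map (i.comp j) := by
    intro δ hδ
    ext k l
    simp only [Matrix.map_apply]
    exact C.crys.dM δ hδ (i.comp j) _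
  have hai : ∀ k, (F b).eval₂ j (a k) = 0 := fun k => (hroot (a k)).mpr ⟨k, rfl⟩
  refine even_lemma (ρ p) (σ₀ := σ) h C.crys.phigen C.crys.val (C.crys.eint (i.comp j) b) C.crys.mu
    C.crys.muphi hε hP hcomp hεP hρe hξ hξξ (hunr H₀ hH₀) C.crys.int C.crys.dfix C.crys.dphi
    (fun δ _ => w5_mapQ δ ψ) hed C.crys.dval ?_ ?_ ht
  · intro δ hδ
    obtain ⟨s, π, hs, hπ, hst, _⟩ := C.inert b ha hroot hP hg i hδ
    exact ⟨s, π, hs, hπ, hst⟩
  · intro k l N' hN' hkl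
    exact ha (C.tor b (hai k) (hai l) hN' hkl)

end Pool.Agent.H76Z
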