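import Pool.Agent.Lib.H76Q.Q6
import Pool.Agent.Lib.H76Q.D1
import Pool.Agent.Lib.H76Q.W6
import Pool.Agent.Lib.H76Y.A1
import Pool.Agent.Lib.H76Y.D2
import Pool.Agent.Lib.H76Z.W2
import Pool.Agent.Lib.H76Z.W4
import Pool.Agent.Lib.H76Z.W5
import Pool.Agent.Lib.H76Y.Y0
import Pool.Agent.Lib.H76Z.Z1

/-!
# the Hodge-Tate type at a block
-/

set_option autoImplicit false
set_option linter.unusedSectionVars false
namespace Pool.Agent.H76Z
open Pool.Agent.H76Y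
open Pool.Agent.H76P Pool.Agent.H76V Pool.Agent.H76Q
open Module Matrix Polynomial Pool.Agent.H53Toric
open Pool.Agent.H76P
open Pool.Agent.H76T (IsIdeal Fam Lc)
open Pool.Agent.H76U (cmp preL IsSplitting)
open Pool.Agent.H76RM (spanK similD)

theorem w6y_vpow {K : Type*} [Field K] {v : K → ℚ} (hv : IsVal v) {x : K} (hx : x ≠ 0) (k : ℕ) :
    v (x ^ k) = k * v x := by
  induction k with
  | zero => rw [pow_zero, w6_v1 hv, Nat.cast_zero, zero_mul]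
  | succ k ih =>
    rw [pow_succ, hv.mul _ _ (pow_ne_zero k hx) hx, ih, Nat.cast_succ]
    ring

theorem w6y_vprod {K : Type*} [Field K] {v : K → ℚ} (hv : IsVal v) {Ω : Type*} [Field Ω] (i : Ω →+* K)
    (s : Finset Ω) (x : Ω → ℕ) (hs : ∀ r ∈ s, r ^ x r ≠ 0) :
    v (i (∏ r ∈ s, r ^ x r)) = ∑ r ∈ s, (x r : ℚ) * v (i r) := by
  classical
  induction s using Finset.induction_on with
  | empty => simp [w6_v1 hv]
  | insert a s ha ih =>
    have h1 : ∀ r ∈ s, r ^ x r ≠ 0 := fun r hr => hs r (Finset.mem_insert_of_mem hr)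
    have ha0 : a ^ x a ≠ 0 := hs a (Finset.mem_insert_self a s)
    have h2 : (∏ r ∈ s, r ^ x r) ≠ 0 := Finset.prod_ne_zero_iff.2 h1
    have h3 : v (i (a ^ x a)) = x a * v (i a) := by
      by_cases h4 : x a = 0
      · rw [h4, pow_zero, map_one, w6_v1 hv, Nat.cast_zero, zero_mul]
      · have h5 : a ≠ 0 := by
          rintro rfl
          exact ha0 (zero_pow h4)
        rw [map_pow, w6y_vpow hv ((map_ne_zero i).2 h5)]
    rw [Finset.prod_insert ha, Finset.sum_insert ha, map_mul,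
      hv.mul _ _ ((map_ne_zero i).2 ha0) ((map_ne_zero i).2 h2), ih h1, h3]

variable {ι : Type*} [Fintype ι] [DecidableEq ι] {ψ : Matrix ι ι ℚ}
    {D : Subalgebra ℚ (Matrix ι ι ℚ)} {M : Type*} [Field M] [NumberField M]
    {m : ℕ} {cl : Fin m → Cl} {bar : Fin m → Fin m} {e : Fin m → Matrix ι ι M} {u₀ : Matrix ι ι M} {G : Type*} [Group G]
    {ρ : ∀ (l : ℕ) [Fact l.Prime], G →* Matrix.GeneralLinearGroup ι ℚ_[l]}
    {p : ℕ} [Fact p.Prime] {σ : G} {q : ℚ} {F : Fin m → M[X]}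
    {φ μ ν : Matrix ι ι (AlgebraicClosure ℚ_[p])} {v : AlgebraicClosure ℚ_[p] → ℚ}
    {Δ : Set (AlgebraicClosure ℚ_[p] ≃+* AlgebraicClosure ℚ_[p])}
    {Ω : Type*} [Field Ω] [CharZero Ω] [IsAlgClosed Ω] [Algebra.IsAlgebraic ℚ Ω] {j : M →+* Ω}
    {R : Finset Ω} {N : Set ℕ} (C : Core3 ψ D cl bar e u₀ ρ p σ q F φ μ ν v Δ j R N)

include C

/-- See `H76Q.Core2.ht_iff`. -/
theorem Core3.ht_iff (b : Fin m)
    {n : ℕ} {a : Fin n → Ω} (ha : Function.Injective a)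
    (hroot : ∀ y : Ω, (F b).eval₂ j y = 0 ↔ ∃ k, y = a k)
    {P : Module.End ℚ (YS a)} (hP : Sp P) (hg : GoodN (cl b) P) :
    ∃ RP ⊆ R, ∀ (i : Ω →+* AlgebraicClosure ℚ_[p]) (ε : Fin n → ℚ),
      IsHT μ φ ((e b).map (i.comp j)) (fun k => i (a k)) ε →
        (FunP P ε ↔ ∃ r ∈ RP, v (i r) = 1) := by
  classical
  have hv : IsVal v := C.crys.val
  have i₀ : Ω →+* AlgebraicClosure ℚ_[p] :=
    (IsAlgClosed.lift (R := ℚ) (S := Ω) (M := AlgebraicClosure ℚ_[p])).toRingHom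
  obtain ⟨H₀, U₀, V₀, hH₀, hl₀⟩ := C.locp b ha hroot i₀
  have : Nonempty (Fin n) := ⟨⟨0, hl₀.pos⟩⟩
  have hn0 : (n : ℚ) ≠ 0 := Nat.cast_ne_zero.2 hl₀.pos.ne'
  have ha0 : ∀ k, a k ≠ 0 := fun k h0 => hl₀.ec.ne k (by rw [h0, map_zero])
  have hsep : ∀ x y : Fin n, x ≠ y → ∃ f ∈ YS a, f x ≠ f y := by
    intro x y hxy
    obtain ⟨f, hf, hne⟩ := hl₀.ts.sep x y hxy
    exact ⟨f, hl₀.yo ▸ hf, hne⟩
  have hg' : GoodN (cl b) (1 - P) := fun K _ _ _ L h1 h2 h3 => (hg K L h1 h2 h3).compl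
  obtain ⟨u, r, hld⟩ := C.ld b ha hroot hP hg i₀
  obtain ⟨u', r', hld'⟩ := C.ld b ha hroot hP.compl hg' i₀
  obtain ⟨t, ht⟩ := exists_lift ha ha0 hP hsep hld
  obtain ⟨t', ht'⟩ := exists_lift ha ha0 hP.compl hsep hld'
  have hm0 : (∏ k, t k) ≠ 0 := lift_prod_ne ht
  have hm10 : (∏ k, t' k) ≠ 0 := lift_prod_ne ht'
  obtain ⟨x, hx0, hxs, hxm⟩ := exists_xN ht ht' ha0 hP hld
  obtain ⟨y, c, hc0, hc, hmc⟩ := C.recl b ha hroot hP hg ht
  have hprod0 : (∏ r ∈ R, r ^ y r) ≠ 0 := by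
    intro h0
    apply hm0
    rw [hmc, h0, zero_mul]
  have hR0 : ∀ r ∈ R, r ^ y r ≠ 0 := Finset.prod_ne_zero_iff.1 hprod0
  have hpa : (∏ k, a k) ^ 2 = algebraMap ℚ Ω q ^ n := C.prod b ha hroot
  refine ⟨R.filter fun r => ¬ n ∣ y r, Finset.filter_subset _ _, fun i ε hε => ?_⟩
  obtain ⟨H₁, U, V, hH₁, hl⟩ := C.locp b ha hroot i
  have hcomp : Comp (LcN _ _ U V) P := hg _ _ hl.ts hl.cls hl.yo
  obtain ⟨r₀, hr₀, hr1, hr2⟩ := C.Rval i
  obtain ⟨n₁, hn₁⟩ := C.int_val b ha hroot hP hg i hc0 hc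
  have hi : ∀ {z : Ω}, z ≠ 0 → i z ≠ 0 := fun hz => (map_ne_zero i).2 hz
  have hrat : i (algebraMap ℚ Ω q) = algebraMap ℚ (AlgebraicClosure ℚ_[p]) q := by
    rw [eq_ratCast, eq_ratCast, map_ratCast]
  have hpa0 : (∏ k, a k) ≠ 0 := Finset.prod_ne_zero_iff.2 fun k _ => ha0 k
  have hq0 : algebraMap ℚ Ω q ≠ 0 := by
    intro h0
    rw [h0, zero_pow hl₀.pos.ne'] at hpa
    exact pow_ne_zero 2 hpa0 hpa
  have hva : 2 * v (i (∏ k, a k)) = n := by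
    have h1 := w6y_vpow hv (hi hpa0) 2
    rw [← map_pow, hpa, map_pow, w6y_vpow hv (hi hq0), hrat, C.vq] at h1
    push_cast at h1
    linarith
  -- the value of `i (∏ t)`
  have hvm : v (i (∏ k, t k)) = y r₀ + n * n₁ := by
    rw [hmc, map_mul, map_pow, hv.mul _ _ (hi hprod0) (pow_ne_zero n (hi hc0)), w6y_vprod hv i R y hR0,
      w6y_vpow hv (hi hc0), hn₁, Finset.sum_eq_single_of_mem r₀ hr₀, hr1, mul_one]
    intro r hr hne
    rw [hr2 r hr hne, mul_zero]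
  have hex : (∃ r ∈ R.filter fun r => ¬ n ∣ y r, v (i r) = 1) ↔ ¬ n ∣ y r₀ := by
    constructor
    · rintro ⟨r, hr, hr'⟩
      obtain ⟨hrR, hrn⟩ := Finset.mem_filter.1 hr
      have hne : r = r₀ := by
        by_contra hne
        rw [hr2 r hrR hne] at hr'
        exact zero_ne_one hr'
      rw [← hne]
      exact hrn
    · intro h
      exact ⟨r₀, Finset.mem_filter.2 ⟨hr₀, h⟩, hr1⟩
  -- first case
  have hcase1 : FunP (1 - P) ε → n ∣ y r₀ := by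
    intro hε1
    obtain ⟨n₂, hn₂⟩ := C.even b ha hroot hP hg ht i hε hε1
    rw [hvm] at hn₂
    have h3 : (y r₀ : ℤ) = n * (n₂ - n₁) := by
      have h4 : ((y r₀ : ℤ) : ℚ) = ((n * (n₂ - n₁) : ℤ) : ℚ) := by
        push_cast
        linarith
      exact_mod_cast h4
    exact Int.natCast_dvd_natCast.1 ⟨_, h3⟩
  -- second case
  have hcase2 : FunP P ε → ¬ n ∣ y r₀ := by
    intro hε1 hdiv
    have hε2 : FunP (1 - (1 - P)) ε := by
      have h1 : (1 - (1 - P) : Module.End ℚ (YS a)) = P := sub_sub_cancel 1 P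
      rw [h1]
      exact hε1
    obtain ⟨n₂, hn₂⟩ := C.even b ha hroot hP.compl hg' ht' i hε hε2
    have hxG : ∀ s ∈ GamP j R a P, s ∈ fixMu n Ω → s x = x := by
      rintro s ⟨-, -, π, hπ, hst⟩ -
      exact hxs s π hπ hst
    obtain ⟨n₃, hn₃⟩ := C.int_val b ha hroot hP hg i hx0 hxG
    have h4 : v (i (∏ k, t k)) + v (i (∏ k, t' k)) = n * v (i x) + v (i (∏ k, a k)) := by
      rw [← hv.mul _ _ (hi hm0) (hi hm10), ← map_mul, hxm, Fintype.card_fin, map_mul,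
        map_pow, hv.mul _ _ (pow_ne_zero n (hi hx0)) (hi hpa0), w6y_vpow hv (hi hx0)]
    obtain ⟨w, hw⟩ := hdiv
    rw [hvm, hn₂, hn₃, hw] at h4
    push_cast at h4
    have h5 : (n : ℚ) * (2 * (w + n₁ + n₂ - n₃) - 1) = 0 := by linarith
    have h6 : (2 * ((w : ℚ) + n₁ + n₂ - n₃) - 1) = 0 := (mul_eq_zero.1 h5).resolve_left hn0
    have h7 : (2 * ((w : ℤ) + n₁ + n₂ - n₃) - 1) = 0 := by exact_mod_cast h6
    omega
  rw [hex]
  constructor
  · exact hcase2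
  · intro hmem
    rcases HT_or hl C.crys.mu C.crys.muphi hε hcomp with h | h
    · exact h
    · exact absurd (hcase1 h) hmem

end Pool.Agent.H76Z
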