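import Pool.Agent.Lib.H76Y.A1
import Pool.Agent.Lib.H76Y.T14
import Pool.Agent.Lib.H76Q.BL2
import Pool.Agent.Lib.H25Y.BLN
import Pool.Agent.Lib.H25Y.BLO
import Pool.Agent.Lib.H76Y.BL2
import Pool.Agent.Lib.H76Z.Z1

/-!
# BL2: blocks are compatible with the simple ideals
-/

set_option autoImplicit false
set_option linter.unusedSectionVars false
namespace Pool.Agent.H76Z
open Pool.Agent.H76Y
open Pool.Agent.H76P Pool.Agent.H76V Pool.Agent.H76Q
open Module Matrix Pool.Agent.H53Toric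
open Pool.Agent.H76T (IsIdeal Fam)

variable {κ : Type*} {K : Type*} [Field K] [CharZero K] [Fintype κ] [DecidableEq κ]
  {L : Submodule K (Module.End K (κ → K))} [IsAlgClosed K] [Nonempty κ]
  {Y : Submodule ℚ (κ → ℚ)} {P : Module.End ℚ Y}

theorem IsBlock.comp_cls {t : Cl} (hP : IsBlock P) (h : TM L) (ht : Cls t L) (hY : Yo L = Y)
    (h8 : t = .o → Fintype.card κ ≠ 8) : Comp L P := by
  cases t with
  | s =>
    obtain ⟨J, hJ⟩ := ts_of_sy h (ht.1 rfl)
    exact H76Q.IsBlock.comp hP hJ hY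
  | o => exact comp_ne8 hP h (h8 rfl) hY
  | n => exact compN hP h (ht.2.2 rfl) hY

theorem IsBlock.good {n : ℕ} (hn : 0 < n) {Y : Submodule ℚ (Fin n → ℚ)} {P : Module.End ℚ Y} (t : Cl)
    (h8 : t = .o → n ≠ 8) (hP : IsBlock P) : GoodN t P := by
  intro K _ _ _ L h ht hY
  have : Nonempty (Fin n) := ⟨⟨0, hn⟩⟩
  exact IsBlock.comp_cls hP h ht hY fun h1 => by
    rw [Fintype.card_fin]
    exact h8 h1

end Pool.Agent.H76Z
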