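import Pool.Agent.Lib.H76Q.X7
import Pool.Agent.Lib.H76Q.E6
import Pool.Agent.Lib.H76Z.W2
import Pool.Agent.Lib.H76Z.E3
import Pool.Agent.Lib.H76Z.Z1
import Pool.Agent.Lib.H86L.L8
import Pool.Agent.Lib.H76Y.BL2
import Pool.Agent.Lib.H76T.TA4

/-!
# no block is exchanged with its complement
-/

set_option autoImplicit false
set_option linter.unusedSectionVars false
namespace Pool.Agent.H76Z
open Pool.Agent.H76Y
open Pool.Agent.H76P Pool.Agent.H76V Pool.Agent.H76Q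
open Module Matrix Polynomial Pool.Agent.H53Toric
open Pool.Agent.H76P
open Pool.Agent.H76T (IsIdeal Fam Lc)
open Pool.Agent.H76U (cmp preL IsSplitting)
open Pool.Agent.H76RM (spanK similD)

section
variable {κ : Type*} {K : Type*} [Field K] [CharZero K] [Fintype κ] [DecidableEq κ]
  {L : Submodule K (Module.End K (κ → K))} [IsAlgClosed K] [Nonempty κ]

/-- A semilinear automorphism which respects `L` respects the adjoint with respect to the form. -/
theorem theta_adj {J : Matrix κ κ K} (h : TS L J)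
    {θ : Module.End K (κ → K) ≃+* Module.End K (κ → K)} {τ : K ≃+* K} {σ : Equiv.Perm κ}
    (hθ : ThetaN L θ τ σ) : Theta L J θ τ σ := by
  refine ⟨hθ.smul, hθ.diag, hθ.mem, ?_⟩
  have h1 : adjE J (1 : Module.End K (κ → K)) = 1 := H76T.adjE_one h.cmp.Jt h.cmp.Jd
  let A : Subalgebra K (Module.End K (κ → K)) :=
    { carrier := {X | θ (adjE J X) = adjE J (θ X)}
      mul_mem' := by
        intro X Y hX hY
        show θ (adjE J (X * Y)) = adjE J (θ (X * Y))
        rw [adjE_mul h.cmp.Jd, map_mul, map_mul, adjE_mul h.cmp.Jd, hX, hY]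
      add_mem' := by
        intro X Y hX hY
        show θ (adjE J (X + Y)) = adjE J (θ (X + Y))
        rw [map_add, map_add, map_add, map_add, hX, hY]
      algebraMap_mem' := by
        intro c
        show θ (adjE J (algebraMap K _ c)) = adjE J (θ (algebraMap K _ c))
        rw [Algebra.algebraMap_eq_smul_one, map_smul, h1, hθ.smul, map_one, map_smul, h1] }
  have hA : A = ⊤ := by
    rw [eq_top_iff, ← H76T.adjoin_top (s := (L : Set (Module.End K (κ → K)))) h.cmp.irr]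
    refine Algebra.adjoin_le fun X hX => ?_
    show θ (adjE J X) = adjE J (θ X)
    rw [h.cmp.skew X hX, h.cmp.skew _ ((hθ.mem X).2 hX), map_neg]
  intro X
  have : X ∈ A := hA ▸ Algebra.mem_top
  exact this

end

variable {ι : Type*} [Fintype ι] [DecidableEq ι] {ψ : Matrix ι ι ℚ}
    {D : Subalgebra ℚ (Matrix ι ι ℚ)} {M : Type*} [Field M] [NumberField M]
    {m : ℕ} {cl : Fin m → Cl} {bar : Fin m → Fin m} {e : Fin m → Matrix ι ι M} {u₀ : Matrix ι ι M} {G : Type*} [Group G]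
    {ρ : ∀ (l : ℕ) [Fact l.Prime], G →* Matrix.GeneralLinearGroup ι ℚ_[l]}
    {p : ℕ} [Fact p.Prime] {σ : G} {q : ℚ} {F : Fin m → M[X]}
    {φ μ ν : Matrix ι ι (AlgebraicClosure ℚ_[p])} {v : AlgebraicClosure ℚ_[p] → ℚ}
    {Δ : Set (AlgebraicClosure ℚ_[p] ≃+* AlgebraicClosure ℚ_[p])}
    {Ω : Type*} [Field Ω] [CharZero Ω] [IsAlgClosed Ω] [Algebra.IsAlgebraic ℚ Ω] {j : M →+* Ω}
    {R : Finset Ω} {N : Set ℕ} (C : Core3 ψ D cl bar e u₀ ρ p σ q F φ μ ν v Δ j R N)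

include C

theorem Core3.no_half (b : Fin m) (hb : cl b = .s) {n : ℕ} {a : Fin n → Ω} (ha : Function.Injective a)
    (hroot : ∀ y : Ω, (F b).eval₂ j y = 0 ↔ ∃ k, y = a k) {z : Module.End ℚ (YS a)}
    (hz : Sp z) (hG : ∀ (K : Type) [Field K] [CharZero K] [IsAlgClosed K]
      (L : Submodule K (Module.End K (Fin n → K))) (J : Matrix (Fin n) (Fin n) K),
      H76Q.TS L J → Yo L = YS a → Comp L z) {s : Ω ≃+* Ω}
    (hpr : Pr D ((e b).map j) ((e b).map (s.toRingHom.comp j)))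
    {π : Equiv.Perm (Fin n)} (hπ : ∀ k, s (a k) = a (π k)) (hmv : MvP π z (1 - z))
    (l : ℕ) [Fact l.Prime] (hl : l ≠ p) (i : Ω →+* AlgebraicClosure ℚ_[l])
    (t : AlgebraicClosure ℚ_[l] ≃ₐ[ℚ_[l]] AlgebraicClosure ℚ_[l])
    (ht1 : ∀ k, t (i (a k)) = i (s (a k))) (ht2 : ∀ c : M, t (i (j c)) = i (s (j c))) : False := by
  classical
  obtain ⟨H₀, U, V, hfin, hloc⟩ := C.locl b ha hroot l hl i
  have hne : Nonempty (Fin n) := ⟨⟨0, hloc.pos⟩⟩
  obtain ⟨J₀, hTS⟩ := ts_of_sy hloc.ts (hloc.cls.1 hb)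
  obtain ⟨a₁, ha₁, a', ha', h1, h2, h3, h4, h5, h6⟩ := hpr.map i
  have e1 : ((e b).map j).map i = (e b).map (i.comp j) := by
    ext x y
    rfl
  have e2 : ((e b).map (s.toRingHom.comp j)).map i = (e b).map (i.comp (s.toRingHom.comp j)) := by
    ext x y
    rfl
  have e3 : (e b).map (i.comp (s.toRingHom.comp j)) = ((e b).map (i.comp j)).map t.toRingEquiv := by
    ext x y
    exact (ht2 _).symm
  rw [e1] at h2 h3 h6
  rw [e2] at h1 h4 h5
  rw [e3] at h1 h4 h5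
  have hlinS : ∀ y ∈ spanK (AlgebraicClosure ℚ_[l]) D, ∀ g : G,
      (ρ l g).1.map (algebraMap ℚ_[l] (AlgebraicClosure ℚ_[l])) * y =
        y * (ρ l g).1.map (algebraMap ℚ_[l] (AlgebraicClosure ℚ_[l])) := by
    intro y hy g
    refine Submodule.span_induction (p := fun y _ => (ρ l g).1.map (algebraMap ℚ_[l] (AlgebraicClosure ℚ_[l])) * y =
        y * (ρ l g).1.map (algebraMap ℚ_[l] (AlgebraicClosure ℚ_[l]))) ?_ ?_ ?_ ?_ hy
    · rintro _ ⟨d, hd, rfl⟩
      have h7 := congrArg (fun m : Matrix ι ι ℚ_[l] => m.map (algebraMap ℚ_[l] (AlgebraicClosure ℚ_[l]))) (C.lin l g d hd)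
      have h8 : (d.map (algebraMap ℚ ℚ_[l])).map (algebraMap ℚ_[l] (AlgebraicClosure ℚ_[l])) =
          d.map (algebraMap ℚ (AlgebraicClosure ℚ_[l])) := by
        ext i j
        simp
      simp only [Matrix.map_mul] at h7
      rw [h8] at h7
      exact h7
    · rw [Matrix.mul_zero, Matrix.zero_mul]
    · intro y y' _ _ h7 h8
      rw [Matrix.mul_add, Matrix.add_mul, h7, h8]
    · intro c y _ h7
      rw [Matrix.mul_smul, Matrix.smul_mul, h7]
  have hzl : ∀ y ∈ spanK (AlgebraicClosure ℚ_[l]) D, ∀ A ∈ zlie (img (AlgebraicClosure ℚ_[l]) (ρ l) H₀), y * A = A * y := by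
    intro y hy A hA
    refine (H76RM.zlie_commute (img_one (ρ l) H₀) ?_ hA).symm
    rintro _ ⟨g, -, rfl⟩
    exact hlinS y hy g
  obtain ⟨θ, hθ, -⟩ := H86L.exists_theta2N (J := ψ.map (algebraMap ℚ (AlgebraicClosure ℚ_[l])))
    (S := img (AlgebraicClosure ℚ_[l]) (ρ l) H₀) hloc.UV hloc.VU hloc.ec hloc.ex (τ := t.toRingEquiv)
    h1 h2 h3 h4 h5 (hlinS a' ha' σ) (hzl a₁ ha₁)
    (H76Q.e6_fix t _) (by
      ext x y
      show t (algebraMap ℚ (AlgebraicClosure ℚ_[l]) (ψ x y)) = algebraMap ℚ (AlgebraicClosure ℚ_[l]) (ψ x y)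
      rw [IsScalarTower.algebraMap_apply ℚ ℚ_[l] (AlgebraicClosure ℚ_[l]), t.commutes]) (fun x hx => by
      obtain ⟨g, -, rfl⟩ := hx
      exact H76Q.e6_fix t _) (σ := π) (fun k => by
      show t (i (a k)) = i (a (π k))
      rw [ht1, hπ])
  exact H76Q.no_swap hTS hloc.yo hz (hG _ _ _ hTS hloc.yo) (theta_adj hTS hθ) hmv

end Pool.Agent.H76Z
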