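import Pool.Agent.Lib.H76Z.G10
import Pool.Agent.Lib.H76Z.W11a
import Pool.Agent.Lib.H76Q.BL3
import Pool.Agent.Lib.H25Y.FullO
import Pool.Agent.Lib.H76Y.G10
import Pool.Agent.Lib.H76Z.Z1

/-!
# the Lie algebra of a component
-/

set_option autoImplicit false
set_option linter.unusedSectionVars false
namespace Pool.Agent.H76Z
open Pool.Agent.H76Y
open Pool.Agent.H76P Pool.Agent.H76V Pool.Agent.H76Q
open Module Matrix Polynomial Pool.Agent.H53Toric
open Pool.Agent.H76P
open Pool.Agent.H76T (IsIdeal Fam Lc)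
open Pool.Agent.H76U (cmp preL IsSplitting)
open Pool.Agent.H76RM (spanK similD)

variable {ι : Type*} [Fintype ι] [DecidableEq ι] {ψ : Matrix ι ι ℚ}
    {D : Subalgebra ℚ (Matrix ι ι ℚ)} {M : Type*} [Field M] [NumberField M]
    {m : ℕ} {cl : Fin m → Cl} {bar : Fin m → Fin m} {e : Fin m → Matrix ι ι M} {u₀ : Matrix ι ι M} {G : Type*} [Group G]
    {ρ : ∀ (l : ℕ) [Fact l.Prime], G →* Matrix.GeneralLinearGroup ι ℚ_[l]}
    {p : ℕ} [Fact p.Prime] {σ : G} {q : ℚ} {F : Fin m → M[X]}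
    {φ μ ν : Matrix ι ι (AlgebraicClosure ℚ_[p])} {v : AlgebraicClosure ℚ_[p] → ℚ}
    {Δ : Set (AlgebraicClosure ℚ_[p] ≃+* AlgebraicClosure ℚ_[p])}
    {Ω : Type*} [Field Ω] [CharZero Ω] [IsAlgClosed Ω] [Algebra.IsAlgebraic ℚ Ω] {j : M →+* Ω}
    {R : Finset Ω} {N : Set ℕ} (C : Core3 ψ D cl bar e u₀ ρ p σ q F φ μ ν v Δ j R N)

include C


/-- The rank of the idempotent is even and positive. -/
theorem Core3.rank_even (b : Fin m) : 0 < (e b).rank ∧ Even (e b).rank := by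
  obtain ⟨a, ha, hroot⟩ := C.enum b
  obtain ⟨h1, -⟩ := C.w9_prod b ha hroot
  obtain ⟨i⟩ := w9_exists_i p Ω
  refine ⟨h1, ?_⟩
  rw [← C.bal p μ C.crys.mu (i.comp j) b]
  exact even_two_mul _

/-- The component theorem: if the decompositions of the set of embeddings are excluded, the Lie algebra
of the component is the whole symplectic, orthogonal or special linear algebra. -/
theorem Core3.comp (part : ∀ b (k : ℕ) (c : Ω → Fin k) (A : Fin k → ℕ), 2 ≤ k →
      PartN D j (cl b = .s) (e b) (e (bar b)) (F b) q R c A → (e b).rank ≠ ∏ x, A x)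
    (two : ∀ b (k : ℕ), 3 ≤ k → (cl b = .s → 4 ≤ k) → (cl b = .n → 4 ≤ k ∧ Even k) →
      (e b).rank ≠ 2 ^ k)
    (binom : ∀ b (k : ℕ), (cl b = .s → 3 ≤ k ∧ Odd k) → (cl b = .o → 4 ≤ k ∧ Even k) →
      cl b ≠ .n → (e b).rank ≠ k.centralBinom) (b : Fin m) :
    ∃ a : Fin (e b).rank → Ω, Function.Injective a ∧
      (∀ y : Ω, (F b).eval₂ j y = 0 ↔ ∃ k, y = a k) ∧
      ∀ (K : Type) [Field K] [CharZero K] [IsAlgClosed K]
        (L : Submodule K (Module.End K (Fin (e b).rank → K))), TM L → Yo L = YS a →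
        (cl b = .s → ∀ J : Matrix (Fin (e b).rank) (Fin (e b).rank) K, Jᵀ = -J → IsUnit J.det →
          (∀ X ∈ L, adjE J X = -X) → ∀ X, adjE J X = -X → X ∈ L) ∧
        (cl b = .o → ∀ J : Matrix (Fin (e b).rank) (Fin (e b).rank) K, Jᵀ = J → IsUnit J.det →
          (∀ X ∈ L, adjE J X = -X) → ∀ X, adjE J X = -X → X ∈ L) ∧
        (cl b = .n → NsL L → ∀ X : Module.End K (Fin (e b).rank → K),
          LinearMap.trace K (Fin (e b).rank → K) X = 0 → X ∈ L) := by
  obtain ⟨a, ha, hroot⟩ := C.enum b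
  obtain ⟨hn, hev⟩ := C.rank_even b
  obtain ⟨-, ha0, -, -⟩ := C.w9_prod b ha hroot
  have hsep : ∀ k l, k ≠ l → ∃ g ∈ YS a, g k ≠ g l :=
    YS_sep ha0 fun k l n hn h => ha (C.tor b ((hroot _).2 ⟨k, rfl⟩) ((hroot _).2 ⟨l, rfl⟩) hn h)
  have hs : ∀ g ∈ YS a, ∑ k, g k = 0 := fun g hg => hg.1
  obtain ⟨FF, hFF, horth, hsum, hperm, hone⟩ := exists_blocksN hn hs (cl b) fun h8 h9 =>
    two b 3 le_rfl (fun h => by rw [h8] at h; cases h) (fun h => by rw [h8] at h; cases h)
      (by rw [h9]; norm_num)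
  have : Nonempty (Fin (e b).rank) := ⟨⟨0, hn⟩⟩
  have hF1 : FF.card = 1 := by
    rcases Nat.lt_or_ge FF.card 2 with h5 | h5
    · interval_cases h6 : FF.card
      · exfalso
        have hcard : (e b).rank = 1 := by
          have h7 := prod_nz hs hsep (fun P hP => (hFF P hP).1) horth hsum
          rw [Finset.card_eq_zero.1 h6, Finset.prod_empty, Fintype.card_fin] at h7
          exact h7
        rw [hcard] at hev
        exact absurd hev (by decide)
      · rfl
    · exfalso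
      obtain ⟨c, A, h7, h8⟩ := C.partd b ha hroot hn hFF horth hsum hperm (by omega)
      exact part b FF.card c A h5 h7 h8
  have hB := hone hF1
  refine ⟨a, ha, hroot, fun K _ _ _ L hT hY => ⟨fun hb J hJ hJd hsk X hX => ?_,
    fun hb J hJ hJd hsk X hX => ?_, fun hb hns X hX => ?_⟩⟩
  · have hTS : TS L J := ⟨⟨hT.cmp.lie, hT.cmp.irr, hJ, hJd, hsk, hT.cmp.gen⟩, hT.diag, hT.sep⟩
    refine full_of_one hTS hY hB (fun k hk => ?_) (fun k hk hk2 => ?_) hX
    · rw [Fintype.card_fin]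
      exact two b k (by omega) (fun _ => hk) (fun h => by rw [hb] at h; cases h)
    · rw [Fintype.card_fin]
      exact binom b k (fun _ => ⟨hk, hk2⟩) (fun h => by rw [hb] at h; cases h)
        (by rw [hb]; decide)
  · refine full_of_oneO hT hJ hJd hsk hY hB (fun k hk => ?_) (fun k hk hk2 => ?_) hX
    · rw [Fintype.card_fin]
      exact two b k hk (fun h => by rw [hb] at h; cases h) (fun h => by rw [hb] at h; cases h)
    · rw [Fintype.card_fin]
      exact binom b k (fun h => by rw [hb] at h; cases h) (fun _ => ⟨hk, hk2⟩)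
        (by rw [hb]; decide)
  · refine H76Y.one_nsX hT hns hY hB (fun k hk hk2 => ?_) X hX
    rw [Fintype.card_fin]
    exact two b k (by omega) (fun h => by rw [hb] at h; cases h) (fun _ => ⟨hk, hk2⟩)

end Pool.Agent.H76Z
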