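import Pool.Agent.Lib.H76Q.G10
import Pool.Agent.Lib.H76Z.BL2
import Pool.Agent.Lib.H76Y.SimpleN
import Pool.Agent.Lib.H76Z.Z1

/-!
# the blocks of a configuration
-/

set_option autoImplicit false
set_option linter.unusedSectionVars false
namespace Pool.Agent.H76Z
open Pool.Agent.H76Y
open Pool.Agent.H76P Pool.Agent.H76V Pool.Agent.H76Q
open Module Matrix Pool.Agent.H53Toric
open Pool.Agent.H76T (IsIdeal Fam)

/-- The blocks of a configuration are good for both classes. -/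
theorem exists_blocksN {n : ℕ} (hn : 0 < n) {Y : Submodule ℚ (Fin n → ℚ)}
    (hs : ∀ g ∈ Y, ∑ k, g k = 0) (t : Cl) (h8 : t = .o → n ≠ 8) :
    ∃ FF : Finset (Module.End ℚ Y), (∀ P ∈ FF, Sp P ∧ P ≠ 0 ∧ GoodN t P) ∧
      (∀ P ∈ FF, ∀ P' ∈ FF, P ≠ P' → P * P' = 0) ∧ ∑ P ∈ FF, P = 1 ∧
      (∀ π : Equiv.Perm (Fin n), (∀ g ∈ Y, g ∘ π ∈ Y) → ∀ P ∈ FF, ∃ P' ∈ FF, MvP π P P') ∧
      (FF.card = 1 → IsBlock (1 : Module.End ℚ Y)) := by
  classical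
  have : Nonempty (Fin n) := ⟨⟨0, hn⟩⟩
  obtain ⟨B, hB, hsum, horth, hsp⟩ := exists_isBlock (Y := Y) hs
  refine ⟨B, fun P hP => ⟨(hsp P hP).1, (hsp P hP).2, ?_⟩, horth, hsum, fun π hπ P hP => ?_,
    fun h1 => isBlock_one hs hB h1⟩
  · exact IsBlock.good hn t h8 ((hB P).1 hP)
  · obtain ⟨P', -, hP', -, -, h1, h2⟩ := ((hB P).1 hP).perm hπ
    exact ⟨P', (hB P').2 hP', h1, h2⟩

end Pool.Agent.H76Z
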