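import Pool.Agent.Lib.H76Z.W2
import Pool.Agent.Lib.H76Y.C6
import Pool.Agent.Lib.H76Z.E4
import Pool.Agent.Lib.H76Z.Z1

/-!
# W3: the factorisation at p
-/

set_option autoImplicit false
set_option linter.unusedSectionVars false
namespace Pool.Agent.H76Z
open Pool.Agent.H76Y
open Pool.Agent.H76P Pool.Agent.H76V Pool.Agent.H76Q
open Module Matrix Polynomial Pool.Agent.H53Toric
open Pool.Agent.H76P
open Pool.Agent.H76T (IsIdeal Fam Lc)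
open Pool.Agent.H76U (cmp preL IsSplitting)
open Pool.Agent.H76RM (spanK similD)

variable {ι : Type*} [Fintype ι] [DecidableEq ι] {ψ : Matrix ι ι ℚ}
    {D : Subalgebra ℚ (Matrix ι ι ℚ)} {M : Type*} [Field M] [NumberField M]
    {m : ℕ} {cl : Fin m → Cl} {bar : Fin m → Fin m} {e : Fin m → Matrix ι ι M} {u₀ : Matrix ι ι M} {G : Type*} [Group G]
    {ρ : ∀ (l : ℕ) [Fact l.Prime], G →* Matrix.GeneralLinearGroup ι ℚ_[l]}
    {p : ℕ} [Fact p.Prime] {σ : G} {q : ℚ} {F : Fin m → M[X]}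
    {φ μ ν : Matrix ι ι (AlgebraicClosure ℚ_[p])} {v : AlgebraicClosure ℚ_[p] → ℚ}
    {Δ : Set (AlgebraicClosure ℚ_[p] ≃+* AlgebraicClosure ℚ_[p])}
    {Ω : Type*} [Field Ω] [CharZero Ω] [IsAlgClosed Ω] [Algebra.IsAlgebraic ℚ Ω] {j : M →+* Ω}
    {R : Finset Ω} {N : Set ℕ} (C : Core3 ψ D cl bar e u₀ ρ p σ q F φ μ ν v Δ j R N)

include C

/-- Local data at `p`. -/
theorem Core3.ld (b : Fin m)
    {n : ℕ} {a : Fin n → Ω} (ha : Function.Injective a)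
    (hroot : ∀ y : Ω, (F b).eval₂ j y = 0 ↔ ∃ k, y = a k)
    {P : Module.End ℚ (YS a)} (hP : Sp P) (hg : GoodN (cl b) P) (i : Ω →+* AlgebraicClosure ℚ_[p]) :
    ∃ (u r : Fin n → AlgebraicClosure ℚ_[p]), LD P a i u r := by
  obtain ⟨H₀, U, V, -, hL⟩ := C.locp b ha hroot i
  have hc : Comp (LcN (ψ.map (algebraMap ℚ (AlgebraicClosure ℚ_[p])))
      (img (AlgebraicClosure ℚ_[p]) (ρ p) H₀) U V) P :=
    hg (AlgebraicClosure ℚ_[p]) _ hL.ts hL.cls hL.yo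
  obtain ⟨u, r, t, hPT⟩ := gen_PT hL hP hc C.crys.phigen
  rw [cmp_phi hL.VU hL.ec, phi_diag] at hPT
  have hne : Nonempty (Fin n) := ⟨⟨0, hL.pos⟩⟩
  obtain ⟨u₀, r₀, hu, hr, fu, fr, hprod⟩ := PT_diag hL.ts hL.yo hP hc hL.ec.inj hPT
  exact ⟨u₀, r₀, ⟨hprod, fu, fr⟩⟩

/-- The eigenvalues are not zero. -/
theorem Core3.ne (b : Fin m) {n : ℕ} {a : Fin n → Ω}
    (hroot : ∀ y : Ω, (F b).eval₂ j y = 0 ↔ ∃ k, y = a k) (k : Fin n) : a k ≠ 0 := by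
  let i : Ω →+* AlgebraicClosure ℚ_[p] := (IsAlgClosed.lift : Ω →ₐ[ℚ] AlgebraicClosure ℚ_[p]).toRingHom
  intro h0
  exact w1_ne C i b ((hroot (a k)).2 ⟨k, rfl⟩) (by rw [h0, map_zero])

/-- The product of the eigenvalues. -/
theorem Core3.prod (b : Fin m)
    {n : ℕ} {a : Fin n → Ω} (ha : Function.Injective a)
    (hroot : ∀ y : Ω, (F b).eval₂ j y = 0 ↔ ∃ k, y = a k) : (∏ k, a k) ^ 2 = algebraMap ℚ Ω q ^ n := by
  let i : Ω →+* AlgebraicClosure ℚ_[p] := (IsAlgClosed.lift : Ω →ₐ[ℚ] AlgebraicClosure ℚ_[p]).toRingHom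
  obtain ⟨H₀, U, V, -, hL⟩ := C.locp b ha hroot i
  apply i.injective
  have h1 := hL.prod
  rw [map_pow, map_prod, h1, map_pow, eq_ratCast, eq_ratCast, map_ratCast]

end Pool.Agent.H76Z
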